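import Mathlib

/-!
# MP_dec24c_co : bad pairs in geodesic ray orientations and strong metric dimension

If `G` is a connected graph such that for every nonempty finite set `W` of vertices the
orientation `G_W` has a bad pair, then `G` has no finite strong resolving set.
-/

namespace Pool.Agent.Results.MP_dec24c_co.BadPairs

open Relation

variable {V : Type*}

/-- A geodesic ray of `G`, given by its vertices in order. -/
def IsGeodesicRay (G : SimpleGraph V) (ρ : ℕ → V) : Prop :=
  (∀ n, G.Adj (ρ n) (ρ (n + 1))) ∧ ∀ m n, m ≤ n → G.dist (ρ m) (ρ n) = n - m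

/-- In `G_W` the pair `u, v` is an edge directed from `u` to `v`. -/
def Directed (G : SimpleGraph V) (W : Set V) (u v : V) : Prop :=
  G.Adj u v ∧
  (∃ ρ : ℕ → V, IsGeodesicRay G ρ ∧ ρ 0 ∈ W ∧ (∃ i, ρ i = u) ∧ (∃ j, ρ j = v)) ∧
  ∀ ρ : ℕ → V, IsGeodesicRay G ρ → ρ 0 ∈ W → (∃ i, ρ i = u) → (∃ j, ρ j = v) →
    ∃ n, ρ n = u ∧ ρ (n + 1) = v

/-- The pair `u, v` is an edge that may be traversed from `u` to `v` in `G_W`: it is
directed from `u` to `v`, or it is undirected. -/
def Passable (G : SimpleGraph V) (W : Set V) (u v : V) : Prop :=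
  G.Adj u v ∧ (Directed G W u v ∨ (¬ Directed G W u v ∧ ¬ Directed G W v u))

/-- There is a path from `u` to `v` in `G_W`, that is a finite sequence of distinct vertices
from `u` to `v` in which each step may be traversed. -/
def HasPath (G : SimpleGraph V) (W : Set V) (u v : V) : Prop :=
  ∃ l : List V, l.Nodup ∧ l.IsChain (Passable G W) ∧ l.head? = some u ∧ l.getLast? = some v

/-- `u, v` is a bad pair in `G_W`. -/
def BadPair (G : SimpleGraph V) (W : Set V) (u v : V) : Prop :=
  u ≠ v ∧ ¬ HasPath G W u v ∧ ¬ HasPath G W v u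

/-- `w` strongly resolves `u, v`. -/
def StronglyResolves (G : SimpleGraph V) (w u v : V) : Prop :=
  G.dist w v = G.dist w u + G.dist u v ∨ G.dist w u = G.dist w v + G.dist v u

/-- `S` is a strong resolving set. -/
def IsStrongResolvingSet (G : SimpleGraph V) (S : Set V) : Prop :=
  ∀ u v : V, u ≠ v → ∃ w ∈ S, StronglyResolves G w u v

/-! ### Paths from reachability -/

lemma hasPath_of_refl {G : SimpleGraph V} {W : Set V} {u v : V}
    (h : ReflTransGen (Passable G W) u v) : HasPath G W u v := by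
  classical
  induction h using ReflTransGen.head_induction_on with
  | refl => exact ⟨[v], by simp, by simp, by simp, by simp⟩
  | @head a b hab _ ih =>
    obtain ⟨l, hl1, hl2, hl3, hl4⟩ := ih
    by_cases ha : a ∈ l
    · obtain ⟨s, t, rfl⟩ := List.append_of_mem ha
      refine ⟨a :: t, ?_, ?_, by simp, ?_⟩
      · exact (List.nodup_append.1 hl1).2.1
      · exact hl2.suffix (List.suffix_append _ _)
      · rw [List.getLast?_append] at hl4
        simpa using hl4
    · refine ⟨a :: l, ?_, ?_, by simp, ?_⟩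
      · exact List.nodup_cons.2 ⟨ha, hl1⟩
      · rw [List.isChain_cons]
        refine ⟨?_, hl2⟩
        intro y hy
        rw [hl3] at hy
        simp at hy
        rw [← hy]
        exact hab
      · cases l with
        | nil => simp at hl3
        | cons c t => simpa using hl4

/-! ### Monotone steps and rays -/

section
variable (G : SimpleGraph V)

/-- A step away from `w`. -/
def Stp (w p q : V) : Prop := G.Adj p q ∧ G.dist w q = G.dist w p + 1

/-- A ray moving away from `w` starts at `v`. -/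
def Alive (w v : V) : Prop := ∃ ρ : ℕ → V, ρ 0 = v ∧ ∀ n, Stp G w (ρ n) (ρ (n + 1))

end

variable {G : SimpleGraph V}

lemma exists_next (hG : G.Connected) {u v : V} {n : ℕ} (h : G.dist u v = n + 1) :
    ∃ u', G.Adj u u' ∧ G.dist u' v = n := by
  obtain ⟨p, hp⟩ := hG.exists_walk_length_eq_dist u v
  cases p with
  | nil => simp at h
  | @cons _ b _ hab q =>
    refine ⟨b, hab, ?_⟩
    have h1 : G.dist b v ≤ q.length := SimpleGraph.dist_le q
    have h2 : q.length + 1 = n + 1 := by
      rw [← h, ← hp]; simp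
    have h3 : G.dist u v ≤ G.dist u b + G.dist b v := hG.dist_triangle
    have h4 : G.dist u b = 1 := SimpleGraph.dist_eq_one_iff_adj.2 hab
    omega

lemma mono_path (hG : G.Connected) {w : V} : ∀ (n : ℕ) (u v : V), G.dist u v = n →
    G.dist w v = G.dist w u + G.dist u v → ReflTransGen (Stp G w) u v := by
  intro n
  induction n with
  | zero =>
    intro u v h _
    have : u = v := hG.dist_eq_zero_iff.1 h
    rw [this]
  | succ n ih =>
    intro u v h hw
    obtain ⟨u', hu, hu'⟩ := exists_next hG h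
    have h1 : G.dist w v ≤ G.dist w u' + G.dist u' v := hG.dist_triangle
    have h2 : G.dist w u' ≤ G.dist w u + G.dist u u' := hG.dist_triangle
    have h3 : G.dist u u' = 1 := SimpleGraph.dist_eq_one_iff_adj.2 hu
    have h4 : G.dist w u' = G.dist w u + 1 := by omega
    exact ReflTransGen.head ⟨hu, h4⟩ (ih u' v hu' (by omega))

lemma alive_back {w p q : V} (h : Stp G w p q) (ha : Alive G w q) : Alive G w p := by
  obtain ⟨ρ, h0, h1⟩ := ha
  refine ⟨fun n => Nat.casesOn n p ρ, rfl, ?_⟩
  intro n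
  cases n with
  | zero => simpa [h0] using h
  | succ n => exact h1 n

lemma alive_back' {w p q : V} (h : ReflTransGen (Stp G w) p q) (ha : Alive G w q) :
    Alive G w p := by
  induction h using ReflTransGen.head_induction_on with
  | refl => exact ha
  | head hab _ ih => exact alive_back hab ih

lemma mono_dist {w : V} {ρ : ℕ → V} (h : ∀ n, Stp G w (ρ n) (ρ (n + 1))) (n : ℕ) :
    G.dist w (ρ n) = G.dist w (ρ 0) + n := by
  induction n with
  | zero => rfl
  | succ n ih => rw [(h n).2, ih]; ring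

lemma adj_dist (hG : G.Connected) {ρ : ℕ → V} (h : ∀ n, G.Adj (ρ n) (ρ (n + 1))) (m k : ℕ) :
    G.dist (ρ m) (ρ (m + k)) ≤ k := by
  induction k with
  | zero => simp
  | succ k ih =>
    have h1 : G.dist (ρ m) (ρ (m + (k + 1))) ≤
      G.dist (ρ m) (ρ (m + k)) + G.dist (ρ (m + k)) (ρ (m + (k + 1))) := hG.dist_triangle
    have h2 : G.dist (ρ (m + k)) (ρ (m + (k + 1))) = 1 :=
      SimpleGraph.dist_eq_one_iff_adj.2 (h (m + k))
    omega

lemma mono_geodesic (hG : G.Connected) {w : V} {ρ : ℕ → V}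
    (h : ∀ n, Stp G w (ρ n) (ρ (n + 1))) : IsGeodesicRay G ρ := by
  refine ⟨fun n => (h n).1, ?_⟩
  intro m n hmn
  obtain ⟨k, rfl⟩ := Nat.exists_eq_add_of_le hmn
  have h1 := adj_dist hG (fun n => (h n).1) m k
  have h2 : G.dist w (ρ (m + k)) ≤ G.dist w (ρ m) + G.dist (ρ m) (ρ (m + k)) :=
    hG.dist_triangle
  rw [mono_dist h (m + k), mono_dist h m] at h2
  omega

lemma geodesic_inj {ρ : ℕ → V} (h : IsGeodesicRay G ρ) {m n : ℕ} (hmn : ρ m = ρ n) :
    m = n := by
  rcases le_total m n with hle | hle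
  · have := h.2 m n hle
    rw [hmn] at this
    simp at this
    omega
  · have := h.2 n m hle
    rw [hmn] at this
    simp at this
    omega

lemma dist_step (hG : G.Connected) (w : V) {p q : V} (h : G.Adj p q) :
    G.dist w q ≤ G.dist w p + 1 := by
  have h1 : G.dist w q ≤ G.dist w p + G.dist p q := hG.dist_triangle
  have h2 : G.dist p q = 1 := SimpleGraph.dist_eq_one_iff_adj.2 h
  omega

lemma le_add_of_adj (hG : G.Connected) (w : V) {ρ : ℕ → V}
    (h : ∀ n, G.Adj (ρ n) (ρ (n + 1))) (m k : ℕ) :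
    G.dist w (ρ (m + k)) ≤ G.dist w (ρ m) + k := by
  have h1 := adj_dist hG h m k
  have h2 : G.dist w (ρ (m + k)) ≤ G.dist w (ρ m) + G.dist (ρ m) (ρ (m + k)) :=
    hG.dist_triangle
  omega

/-- Every geodesic ray moves away from one of the vertices of a finite strong resolving
set all the time. -/
lemma ray_mono (hG : G.Connected) (S : Finset V) (hS : IsStrongResolvingSet G S)
    {ρ : ℕ → V} (h : IsGeodesicRay G ρ) : ∃ w ∈ S, ∀ n, Stp G w (ρ n) (ρ (n + 1)) := by
  classical
  by_contra hcon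
  push Not at hcon
  choose! f hf using hcon
  set N := S.sup (fun w => f w + G.dist w (ρ 0) + 2) with hN
  have hle : ∀ w ∈ S, f w + G.dist w (ρ 0) + 2 ≤ N := fun w hw =>
    Finset.le_sup (f := fun w => f w + G.dist w (ρ 0) + 2) hw
  have hN1 : G.dist (ρ 0) (ρ (N + 1)) = N + 1 := by
    have := h.2 0 (N + 1) (by omega)
    simpa using this
  have hne : ρ 0 ≠ ρ (N + 1) := by
    intro he
    rw [← he] at hN1
    simp at hN1
  obtain ⟨w, hw, hr⟩ := hS _ _ hne
  have hw' : w ∈ S := by simpa using hw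
  have h1 := hle w hw'
  have h2 := hf w hw'
  have h3 : G.dist w (ρ (f w + 1)) ≤ G.dist w (ρ (f w)) := by
    by_contra hlt
    push Not at hlt
    have := dist_step hG w (h.1 (f w))
    exact h2 ⟨h.1 (f w), by omega⟩
  have h4 := le_add_of_adj hG w h.1 0 (f w)
  obtain ⟨k, hk⟩ := Nat.exists_eq_add_of_le (show f w + 1 ≤ N + 1 by omega)
  have h5 := le_add_of_adj hG w h.1 (f w + 1) k
  rw [← hk] at h5
  rw [Nat.zero_add] at h4
  rcases hr with hr | hr
  · omega
  · rw [G.dist_comm (u := ρ (N + 1))] at hr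
    omega

/-! ### Finiteness -/

lemma eq_of_dist (hG : G.Connected) {S : Finset V} (hS : IsStrongResolvingSet G S) {u v : V}
    (h : ∀ w ∈ S, G.dist w u = G.dist w v) : u = v := by
  by_contra hne
  obtain ⟨w, hw, hr⟩ := hS u v hne
  have h1 := h w (by simpa using hw)
  rcases hr with hr | hr
  · exact hne (hG.dist_eq_zero_iff.1 (by omega))
  · exact hne (hG.dist_eq_zero_iff.1 (by omega : G.dist v u = 0)).symm

lemma box_finite (hG : G.Connected) {S : Finset V} (hS : IsStrongResolvingSet G S) (B : ℕ) :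
    {v : V | ∀ w ∈ S, G.dist w v ≤ B}.Finite := by
  classical
  let f : V → (S → ℕ) := fun v w => G.dist w.1 v
  refine Set.Finite.of_finite_image (f := f) ?_ ?_
  · refine Set.Finite.subset (Set.Finite.pi' (fun _ : S => Set.finite_Iic B)) ?_
    rintro _ ⟨v, hv, rfl⟩ w
    exact hv w.1 w.2
  · intro u _ v _ huv
    refine eq_of_dist hG hS ?_
    intro w hw
    exact congrFun huv ⟨w, hw⟩

lemma ball_finite (hG : G.Connected) {S : Finset V} (hS : IsStrongResolvingSet G S) (x : V)
    (R : ℕ) : {v : V | G.dist x v ≤ R}.Finite := by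
  refine (box_finite hG hS (S.sup (fun w => G.dist w x) + R)).subset ?_
  intro v hv w hw
  have h1 : G.dist w v ≤ G.dist w x + G.dist x v := hG.dist_triangle
  have h2 : G.dist w x ≤ S.sup (fun w => G.dist w x) :=
    Finset.le_sup (f := fun w => G.dist w x) hw
  have h3 : G.dist x v ≤ R := hv
  omega

lemma alive_of_rec {w v0 : V} (P : ℕ → V → Prop) (h0 : P 0 v0)
    (hs : ∀ n z, P n z → ∃ z', Stp G w z z' ∧ P (n + 1) z') : Alive G w v0 := by
  choose! g hg1 hg2 using hs
  let ρ : ℕ → V := fun n => Nat.rec v0 (fun n z => g n z) n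
  have hρ : ∀ n, P n (ρ n) := by
    intro n
    induction n with
    | zero => exact h0
    | succ n ih => exact hg2 n _ ih
  exact ⟨ρ, rfl, fun n => hg1 n _ (hρ n)⟩

lemma dead_finite (hG : G.Connected) {S : Finset V} (hS : IsStrongResolvingSet G S) {w : V}
    (hw : w ∈ S) : {v : V | ¬ Alive G w v}.Finite := by
  classical
  by_contra hinf
  let δ : V → (S → ℤ) := fun v w' => (G.dist w'.1 v : ℤ) - G.dist w v
  set C := S.sup (fun w' => G.dist w' w) with hC
  have hT : (Set.pi Set.univ (fun _ : S => Set.Icc (-(C : ℤ)) (C : ℤ))).Finite :=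
    Set.Finite.pi (fun _ => Set.finite_Icc _ _)
  have hmem : ∀ v, δ v ∈ Set.pi Set.univ (fun _ : S => Set.Icc (-(C : ℤ)) (C : ℤ)) := by
    intro v w' _
    have h1 : G.dist w'.1 v ≤ G.dist w'.1 w + G.dist w v := hG.dist_triangle
    have h2 : G.dist w v ≤ G.dist w w'.1 + G.dist w'.1 v := hG.dist_triangle
    have h3 : G.dist w'.1 w ≤ C := Finset.le_sup (f := fun w' => G.dist w' w) w'.2
    have h4 : G.dist w w'.1 = G.dist w'.1 w := G.dist_comm
    simp only [δ, Set.mem_Icc]
    constructor <;> omega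
  obtain ⟨y, hy⟩ : ∃ y, ({v : V | ¬ Alive G w v} ∩ δ ⁻¹' {y}).Infinite := by
    by_contra hno
    push Not at hno
    apply hinf
    refine (hT.biUnion (t := fun y => {v : V | ¬ Alive G w v} ∩ δ ⁻¹' {y})
      (fun y _ => hno y)).subset ?_
    intro v hv
    simp only [Set.mem_iUnion]
    exact ⟨δ v, hmem v, hv, rfl⟩
  set I := {v : V | ¬ Alive G w v} ∩ δ ⁻¹' {y} with hI
  obtain ⟨v0, hv0, hmin⟩ := (measure (fun v => G.dist w v)).wf.has_min I hy.nonempty
  have hdiff : ∀ v ∈ I, ∀ w' ∈ S,
      (G.dist w' v : ℤ) - G.dist w' v0 = (G.dist w v : ℤ) - G.dist w v0 := by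
    intro v hv w' hw'
    have h1 : δ v = y := hv.2
    have h2 : δ v0 = y := hv0.2
    have h3 : δ v ⟨w', hw'⟩ = δ v0 ⟨w', hw'⟩ := by rw [h1, h2]
    simp only [δ] at h3
    omega
  have hkey : ∀ v ∈ I, ∀ w' ∈ S, G.dist w' v = G.dist w' v0 + G.dist v0 v := by
    intro v hv w' hw'
    by_cases hvv : v0 = v
    · subst hvv; simp
    have hm : ¬ G.dist w v < G.dist w v0 := hmin v hv
    obtain ⟨x, hx, hr⟩ := hS v0 v hvv
    have h1 := hdiff v hv x (by simpa using hx)
    have h2 := hdiff v hv w' hw'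
    rcases hr with hr | hr
    · omega
    · have h3 : G.dist v v0 = 0 := by omega
      exact absurd (hG.dist_eq_zero_iff.1 h3).symm hvv
  apply hv0.1
  refine alive_of_rec (fun n z => ∀ w' ∈ S, G.dist w' z = G.dist w' v0 + n) ?_ ?_
  · intro w' _; simp
  · intro n z hz
    obtain ⟨v, hv, hvn⟩ : ∃ v ∈ I, n < G.dist v0 v := by
      by_contra hno
      push Not at hno
      exact hy ((ball_finite hG hS v0 n).subset (fun v hv => hno v hv))
    have hne : z ≠ v := by
      intro he
      subst he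
      have h1 := hz w hw
      have h2 := hkey z hv w hw
      omega
    obtain ⟨x, hx, hr⟩ := hS z v hne
    have hx' : x ∈ S := by simpa using hx
    have h1 := hz x hx'
    have h2 := hkey v hv x hx'
    have h3 : G.dist z v + n = G.dist v0 v := by
      rcases hr with hr | hr
      · omega
      · omega
    obtain ⟨z', hz1, hz2⟩ := exists_next hG (show G.dist z v = (G.dist v0 v - n - 1) + 1 by omega)
    have h4 : ∀ w' ∈ S, G.dist w' z' = G.dist w' z + 1 := by
      intro w' hw'
      have h5 := dist_step hG w' hz1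
      have h6 : G.dist w' v ≤ G.dist w' z' + G.dist z' v := hG.dist_triangle
      have h7 := hkey v hv w' hw'
      have h8 := hz w' hw'
      omega
    refine ⟨z', ⟨hz1, h4 w hw⟩, ?_⟩
    intro w' hw'
    have h5 := h4 w' hw'
    have h8 := hz w' hw'
    omega

/-! ### Good steps -/

lemma refl_mono {r r' : V → V → Prop} (h : ∀ p q, r p q → r' p q) {u v : V}
    (huv : ReflTransGen r u v) : ReflTransGen r' u v := by
  induction huv with
  | refl => exact ReflTransGen.refl
  | tail _ hbc ih => exact ih.tail (h _ _ hbc)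

/-- A step away from some `w ∈ S` towards a vertex from which one can move away for ever. -/
def Good (G : SimpleGraph V) (S : Finset V) (p q : V) : Prop :=
  ∃ w ∈ S, Stp G w p q ∧ Alive G w q

/-- The vertices reached by good steps from far away. -/
def Far (G : SimpleGraph V) (S : Finset V) (w1 : V) (R : ℕ) : Set V :=
  {v | ∃ f, R ≤ G.dist w1 f ∧ ReflTransGen (Good G S) f v}

lemma far_good {S : Finset V} {w1 : V} {R : ℕ} {p q : V} (hp : p ∈ Far G S w1 R)
    (h : Good G S p q) : q ∈ Far G S w1 R := by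
  obtain ⟨f, h1, h2⟩ := hp
  exact ⟨f, h1, h2.tail h⟩

lemma far_refl {S : Finset V} {w1 : V} {R : ℕ} {p : V} (hp : R ≤ G.dist w1 p) :
    p ∈ Far G S w1 R := ⟨p, hp, ReflTransGen.refl⟩

lemma far_anti {S : Finset V} {w1 : V} {R R' : ℕ} (h : R ≤ R') {p : V}
    (hp : p ∈ Far G S w1 R') : p ∈ Far G S w1 R := by
  obtain ⟨f, h1, h2⟩ := hp
  exact ⟨f, h.trans h1, h2⟩

lemma exists_radius {D : Set V} (hD : D.Finite) (Q : V → ℕ → Prop)
    (hQ : ∀ d R R', R ≤ R' → Q d R' → Q d R) (C0 : ℕ) :
    ∃ R0, C0 ≤ R0 ∧ ∀ d ∈ D, Q d R0 → ∀ R, Q d R := by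
  classical
  let r : V → ℕ := fun d => if h : ∃ R, ¬ Q d R then Classical.choose h else 0
  refine ⟨C0 + hD.toFinset.sup r, by omega, ?_⟩
  intro d hd hq R
  by_contra hR
  have hex : ∃ R, ¬ Q d R := ⟨R, hR⟩
  have h1 : ¬ Q d (r d) := by
    simp only [r, dif_pos hex]
    exact Classical.choose_spec hex
  have h2 : r d ≤ hD.toFinset.sup r := Finset.le_sup (by simpa using hd)
  exact h1 (hQ d _ _ (by omega) hq)

lemma exists_cut (hG : G.Connected) (w1 w : V) {R0 : ℕ} {a p : V}
    (h : ReflTransGen (Stp G w) a p) (ha : G.dist w1 a ≤ R0) (hp : R0 ≤ G.dist w1 p) :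
    ∃ z, G.dist w1 z = R0 ∧ ReflTransGen (Stp G w) z p := by
  induction h using ReflTransGen.head_induction_on with
  | refl => exact ⟨p, by omega, ReflTransGen.refl⟩
  | @head a b hab hbp ih =>
    by_cases hR : G.dist w1 a = R0
    · exact ⟨a, hR, ReflTransGen.head hab hbp⟩
    · exact ih (by have := dist_step hG w1 hab.1; omega)

lemma exists_ray {w z p q : V} (h : ReflTransGen (Stp G w) z p) (hpq : Stp G w p q)
    (hq : Alive G w q) :
    ∃ (ρ : ℕ → V) (n : ℕ), ρ 0 = z ∧ (∀ i, Stp G w (ρ i) (ρ (i + 1))) ∧ ρ n = p ∧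
      ρ (n + 1) = q := by
  induction h using ReflTransGen.head_induction_on with
  | refl =>
    obtain ⟨ρ, h0, h1⟩ := hq
    refine ⟨fun n => Nat.casesOn n p ρ, 0, rfl, ?_, rfl, h0⟩
    intro n
    cases n with
    | zero => simpa [h0] using hpq
    | succ n => exact h1 n
  | @head a b hab _ ih =>
    obtain ⟨ρ, n, h0, h1, h2, h3⟩ := ih
    refine ⟨fun n => Nat.casesOn n a ρ, n + 1, rfl, ?_, h2, h3⟩
    intro i
    cases i with
    | zero => simpa [h0] using hab
    | succ i => exact h1 i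

/-- The main construction. -/
lemma exists_good_set (hG : G.Connected) [Infinite V] {S : Finset V}
    (hS : IsStrongResolvingSet G S) {w1 : V} (hw1 : w1 ∈ S) :
    ∃ W : Set V, W.Nonempty ∧ W.Finite ∧
      ∀ u v, u ≠ v → ReflTransGen (Passable G W) u v ∨ ReflTransGen (Passable G W) v u := by
  classical
  set D : Set V := {v | ∃ w ∈ S, ¬ Alive G w v} with hDdef
  have hD : D.Finite := by
    have : D = ⋃ w ∈ S, {v | ¬ Alive G w v} := by
      ext v; simp [hDdef]
    rw [this]
    exact S.finite_toSet.biUnion (fun w hw => dead_finite hG hS hw)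
  set C0 := S.sup (fun w => G.dist w1 w) with hC0
  have hC : ∀ w ∈ S, G.dist w1 w ≤ C0 := fun w hw =>
    Finset.le_sup (f := fun w => G.dist w1 w) hw
  obtain ⟨R0, hR0, hDR⟩ := exists_radius hD (fun d R => d ∈ Far G S w1 R)
    (fun d R R' h hd => far_anti h hd) C0
  set A := Far G S w1 R0 with hA
  set W : Set V := A ∩ {v | G.dist w1 v ≤ R0} with hWdef
  have hWfin : W.Finite := (ball_finite hG hS w1 R0).subset Set.inter_subset_right
  -- monotone paths from `W`
  have hstart : ∀ p ∈ A, ∀ w ∈ S, ∃ z ∈ W, ReflTransGen (Stp G w) z p := by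
    intro p hp w hw
    by_cases hpR : G.dist w1 p ≤ R0
    · exact ⟨p, ⟨hp, hpR⟩, ReflTransGen.refl⟩
    · have h1 : ReflTransGen (Stp G w) w p := mono_path hG _ w p rfl (by simp)
      obtain ⟨z, hz1, hz2⟩ := exists_cut hG w1 w (R0 := R0) h1
        ((hC w hw).trans hR0) (by omega)
      exact ⟨z, ⟨far_refl hz1.ge, hz1.le⟩, hz2⟩
  have hWne : W.Nonempty := by
    obtain ⟨p, hp⟩ : ∃ p, R0 ≤ G.dist w1 p := by
      by_contra hno
      push Not at hno
      exact Set.infinite_univ ((ball_finite hG hS w1 R0).subset (fun v _ => (hno v).le))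
    obtain ⟨z, hz, _⟩ := hstart p (far_refl hp) w1 hw1
    exact ⟨z, hz⟩
  -- rays from `W` stay in `A`
  have hstay : ∀ ρ : ℕ → V, IsGeodesicRay G ρ → ρ 0 ∈ W → ∀ i, ρ i ∈ A := by
    intro ρ hρ h0 i
    obtain ⟨w, hw, hmono⟩ := ray_mono hG S hS hρ
    induction i with
    | zero => exact h0.1
    | succ i ih =>
      refine far_good ih ⟨w, hw, hmono i, fun n => ρ (i + 1 + n), rfl, ?_⟩
      intro n
      exact hmono (i + 1 + n)
  have hout : ∀ p q, G.Adj p q → (p ∉ A ∨ q ∉ A) → Passable G W p q := by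
    intro p q hpq hor
    refine ⟨hpq, Or.inr ⟨?_, ?_⟩⟩
    · rintro ⟨_, ⟨ρ, hρ, h0, ⟨i, hi⟩, ⟨j, hj⟩⟩, _⟩
      rcases hor with h | h
      · exact h (hi ▸ hstay ρ hρ h0 i)
      · exact h (hj ▸ hstay ρ hρ h0 j)
    · rintro ⟨_, ⟨ρ, hρ, h0, ⟨i, hi⟩, ⟨j, hj⟩⟩, _⟩
      rcases hor with h | h
      · exact h (hj ▸ hstay ρ hρ h0 j)
      · exact h (hi ▸ hstay ρ hρ h0 i)
  have hgood : ∀ p q, Good G S p q → Passable G W p q := by
    rintro p q ⟨w, hw, hpq, hq⟩
    by_cases hp : p ∈ A
    · obtain ⟨z, hz, hzp⟩ := hstart p hp w hw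
      obtain ⟨ρ, n, h0, h1, h2, h3⟩ := exists_ray hzp hpq hq
      have hgeo := mono_geodesic hG h1
      have hnot : ¬ Directed G W q p := by
        rintro ⟨_, _, hall⟩
        obtain ⟨m, hm1, hm2⟩ := hall ρ hgeo (h0 ▸ hz) ⟨n + 1, h3⟩ ⟨n, h2⟩
        have e1 : m = n + 1 := geodesic_inj hgeo (hm1.trans h3.symm)
        have e2 : m + 1 = n := geodesic_inj hgeo (hm2.trans h2.symm)
        omega
      refine ⟨hpq.1, ?_⟩
      by_cases hd : Directed G W p q
      · exact Or.inl hd
      · exact Or.inr ⟨hd, hnot⟩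
    · exact hout p q hpq.1 (Or.inl hp)
  have hC1 : ∀ w ∈ S, ∀ p q, ReflTransGen (Stp G w) p q → Alive G w q →
      ReflTransGen (Passable G W) p q := by
    intro w hw p q h hq
    induction h using ReflTransGen.head_induction_on with
    | refl => exact ReflTransGen.refl
    | @head a b hab hbq ih =>
      exact ReflTransGen.head (hgood a b ⟨w, hw, hab, alive_back' hbq hq⟩) ih
  have hC2 : ∀ v, ∃ N, ∀ f, N ≤ G.dist w1 f → ReflTransGen (Passable G W) v f := by
    intro v
    refine ⟨hD.toFinset.sup (fun d => G.dist w1 d) + 1 + C0 +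
      S.sup (fun w => G.dist w v), ?_⟩
    intro f hf
    have hfD : f ∉ D := by
      intro hfd
      have : G.dist w1 f ≤ hD.toFinset.sup (fun d => G.dist w1 d) :=
        Finset.le_sup (f := fun d => G.dist w1 d) (by simpa using hfd)
      omega
    by_cases hvf : v = f
    · rw [hvf]
    obtain ⟨w, hw, hr⟩ := hS v f hvf
    have hw' : w ∈ S := by simpa using hw
    have h1 : G.dist w v ≤ S.sup (fun w => G.dist w v) :=
      Finset.le_sup (f := fun w => G.dist w v) hw'
    have h2 : G.dist w1 f ≤ G.dist w1 w + G.dist w f := hG.dist_triangle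
    have h3 := hC w hw'
    rcases hr with hr | hr
    · refine hC1 w hw' v f (mono_path hG _ v f rfl hr) ?_
      by_contra hd
      exact hfD ⟨w, hw', hd⟩
    · omega
  have hC3 : ∀ d ∈ D, d ∈ A → ∀ v, ReflTransGen (Passable G W) v d := by
    intro d hd hdA v
    obtain ⟨N, hN⟩ := hC2 v
    obtain ⟨f, hf1, hf2⟩ := hDR d hd hdA N
    exact (hN f hf1).trans (refl_mono hgood hf2)
  have hC4 : ∀ w ∈ S, ∀ u v, ReflTransGen (Stp G w) u v →
      ReflTransGen (Passable G W) u v := by
    intro w hw u v h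
    induction h with
    | refl => exact ReflTransGen.refl
    | @tail b c hub hbc ih =>
      by_cases hcA : c ∈ A
      · by_cases hc : Alive G w c
        · exact ih.tail (hgood b c ⟨w, hw, hbc, hc⟩)
        · exact hC3 c ⟨w, hw, hc⟩ hcA u
      · exact ih.tail (hout b c hbc.1 (Or.inr hcA))
  refine ⟨W, hWne, hWfin, ?_⟩
  intro u v huv
  obtain ⟨w, hw, hr⟩ := hS u v huv
  have hw' : w ∈ S := by simpa using hw
  rcases hr with hr | hr
  · exact Or.inl (hC4 w hw' u v (mono_path hG _ u v rfl hr))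
  · exact Or.inr (hC4 w hw' v u (mono_path hG _ v u rfl hr))

/-- If `G` is a connected graph such that for every nonempty finite set `W` of vertices the
orientation `G_W` has a bad pair, then `G` has no finite strong resolving set. -/
theorem result {V : Type*} (G : SimpleGraph V) (hG : G.Connected)
    (hbad : ∀ W : Set V, W.Nonempty → W.Finite → ∃ u v, BadPair G W u v) :
    ∀ S : Set V, S.Finite → ¬ IsStrongResolvingSet G S := by
  classical
  intro S0 hS0 hres
  obtain ⟨S, rfl⟩ := hS0.exists_finset_coe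
  obtain ⟨v0⟩ := hG.nonempty
  rcases finite_or_infinite V with hfin | hinf
  · -- no geodesic rays
    obtain ⟨u, v, huv, h1, h2⟩ := hbad {v0} (Set.singleton_nonempty v0) (Set.finite_singleton v0)
    apply h1
    apply hasPath_of_refl
    have hr := (SimpleGraph.reachable_iff_reflTransGen u v).1 (hG.preconnected u v)
    have hno : ∀ p q, ¬ Directed G {v0} p q := by
      rintro p q ⟨_, ⟨ρ, hρ, _⟩, _⟩
      exact not_injective_infinite_finite ρ (fun m n hmn => geodesic_inj hρ hmn)
    refine refl_mono (fun p q hpq => ?_) hr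
    exact ⟨hpq, Or.inr ⟨hno p q, hno q p⟩⟩
  · rcases S.eq_empty_or_nonempty with rfl | ⟨w1, hw1⟩
    · obtain ⟨u, v, huv⟩ := exists_pair_ne V
      obtain ⟨w, hw, _⟩ := hres u v huv
      simp at hw
    · obtain ⟨W, hW1, hW2, hW3⟩ := exists_good_set hG hres hw1
      obtain ⟨u, v, huv, h1, h2⟩ := hbad W hW1 hW2
      rcases hW3 u v huv with h | h
      · exact h1 (hasPath_of_refl h)
      · exact h2 (hasPath_of_refl h)

end Pool.Agent.Results.MP_dec24c_co.BadPairs
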